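import Mathlib

/-!
A fuzzy implication satisfying the law of contraposition with respect to some fuzzy negation,
but satisfying neither the left nor the right law of contraposition with respect to
any fuzzy negation at all.
-/

namespace Pool.Agent.Results.MP_e504dd_lc.OnlyCP

/-- A fuzzy negation: a non-increasing `N : [0,1] → [0,1]` with `N 0 = 1` and `N 1 = 0`. -/
structure IsFuzzyNegation (N : unitInterval → unitInterval) : Prop where
  antitone : Antitone N
  map_zero : N 0 = 1
  map_one : N 1 = 0

/-- A fuzzy implication: `I : [0,1]² → [0,1]`, non-increasing in the first variable,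
non-decreasing in the second, with `I 0 0 = I 1 1 = 1` and `I 1 0 = 0`. -/
structure IsFuzzyImplication (I : unitInterval → unitInterval → unitInterval) : Prop where
  antitone_left : ∀ y, Antitone (fun x => I x y)
  monotone_right : ∀ x, Monotone (fun y => I x y)
  zero_zero : I 0 0 = 1
  one_one : I 1 1 = 1
  one_zero : I 1 0 = 0

/-- (CP): `I(x,y) = I(N(y),N(x))` for all `x, y`. -/
def CP (I : unitInterval → unitInterval → unitInterval) (N : unitInterval → unitInterval) : Prop :=
  ∀ x y, I x y = I (N y) (N x)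

/-- (L-CP): `I(N(x),y) = I(N(y),x)` for all `x, y`. -/
def LCP (I : unitInterval → unitInterval → unitInterval) (N : unitInterval → unitInterval) : Prop :=
  ∀ x y, I (N x) y = I (N y) x

/-- (R-CP): `I(x,N(y)) = I(y,N(x))` for all `x, y`. -/
def RCP (I : unitInterval → unitInterval → unitInterval) (N : unitInterval → unitInterval) : Prop :=
  ∀ x y, I x (N y) = I y (N x)

/-! ### The auxiliary objects -/

/-- A strictly increasing map from the integers to `[1/2, 1]`. -/
noncomputable def G (k : ℤ) : ℝ := 3 / 4 + Real.arctan k / (2 * Real.pi)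

theorem G_strictMono : StrictMono G := by
  intro a b hab
  unfold G
  have h1 : Real.arctan (a : ℝ) < Real.arctan (b : ℝ) :=
    Real.arctan_strictMono (by exact_mod_cast hab)
  have hpi := Real.pi_pos
  have h2 : Real.arctan (a : ℝ) / (2 * Real.pi) < Real.arctan (b : ℝ) / (2 * Real.pi) :=
    div_lt_div_of_pos_right h1 (by positivity)
  linarith

theorem G_ge (k : ℤ) : 1 / 2 ≤ G k := by
  unfold G
  have hpi := Real.pi_pos
  have h1 := Real.neg_pi_div_two_lt_arctan (k : ℝ)
  have h2 : -(1 / 4 : ℝ) ≤ Real.arctan (k : ℝ) / (2 * Real.pi) := by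
    rw [le_div_iff₀ (by positivity)]
    nlinarith
  linarith

theorem G_le (k : ℤ) : G k ≤ 1 := by
  unfold G
  have hpi := Real.pi_pos
  have h1 := Real.arctan_lt_pi_div_two (k : ℝ)
  have h2 : Real.arctan (k : ℝ) / (2 * Real.pi) ≤ 1 / 4 := by
    rw [div_le_iff₀ (by positivity)]
    nlinarith
  linarith

/-- The implication on the middle copy of the integers. -/
noncomputable def J (n m : ℤ) : ℝ :=
  if n < 0 then (if m < 0 then G (2 * (m - n) + m % 2) else 1)
  else (if m < 0 then 1 / 4 else G (2 * (m - n) + n % 2))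

/-- The negation on the middle copy of the integers. -/
def Nz (n : ℤ) : ℤ := if n < 0 then -n else -(n + 2)

theorem J_nonneg (n m : ℤ) : 0 ≤ J n m := by
  unfold J
  have := G_ge (2 * (m - n) + m % 2)
  have := G_ge (2 * (m - n) + n % 2)
  split_ifs <;> linarith

theorem J_le (n m : ℤ) : J n m ≤ 1 := by
  unfold J
  have := G_le (2 * (m - n) + m % 2)
  have := G_le (2 * (m - n) + n % 2)
  split_ifs <;> linarith

theorem J_ge_quarter (n m : ℤ) : 1 / 4 ≤ J n m := by
  unfold J
  have := G_ge (2 * (m - n) + m % 2)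
  have := G_ge (2 * (m - n) + n % 2)
  split_ifs <;> linarith

theorem J_ge_half_of_upper {n m : ℤ} (hm : ¬ m < 0) : 1 / 2 ≤ J n m := by
  unfold J
  have := G_ge (2 * (m - n) + n % 2)
  split_ifs <;> linarith

theorem J_ge_half_of_lower {n m : ℤ} (hn : n < 0) : 1 / 2 ≤ J n m := by
  unfold J
  have := G_ge (2 * (m - n) + m % 2)
  split_ifs <;> linarith

theorem J_anti {n n' m : ℤ} (h : n ≤ n') : J n' m ≤ J n m := by
  rcases eq_or_lt_of_le h with rfl | hlt
  · exact le_rfl
  unfold J
  by_cases hn : n < 0 <;> by_cases hn' : n' < 0 <;> by_cases hm : m < 0 <;>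
    simp only [hn, hn', hm, if_true, if_false]
  · exact G_strictMono.monotone (by omega)
  · exact le_rfl
  · have := G_ge (2 * (m - n) + m % 2); linarith
  · exact G_le _
  · omega
  · omega
  · exact le_rfl
  · exact G_strictMono.monotone (by omega)

theorem J_mono {n m m' : ℤ} (h : m ≤ m') : J n m ≤ J n m' := by
  rcases eq_or_lt_of_le h with rfl | hlt
  · exact le_rfl
  unfold J
  by_cases hn : n < 0 <;> by_cases hm : m < 0 <;> by_cases hm' : m' < 0 <;>
    simp only [hn, hm, hm', if_true, if_false]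
  · exact G_strictMono.monotone (by omega)
  · exact G_le _
  · omega
  · exact le_rfl
  · exact le_rfl
  · have := G_ge (2 * (m' - n) + n % 2); linarith
  · omega
  · exact G_strictMono.monotone (by omega)

theorem J_CP (n m : ℤ) : J n m = J (Nz m) (Nz n) := by
  unfold J Nz
  by_cases hn : n < 0 <;> by_cases hm : m < 0
  · have h1 : ¬ (-m < 0) := by omega
    have h2 : ¬ (-n < 0) := by omega
    simp only [hn, hm, h1, h2, if_true, if_false]
    congr 1
    omega
  · have h1 : (-(m + 2) < 0) := by omega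
    have h2 : ¬ (-n < 0) := by omega
    simp only [hn, hm, h1, h2, if_true, if_false]
  · have h1 : ¬ (-m < 0) := by omega
    have h2 : (-(n + 2) < 0) := by omega
    simp only [hn, hm, h1, h2, if_true, if_false]
  · have h1 : (-(m + 2) < 0) := by omega
    have h2 : (-(n + 2) < 0) := by omega
    simp only [hn, hm, h1, h2, if_true, if_false]
    congr 1
    omega

theorem Nz_anti {n m : ℤ} (h : n ≤ m) : Nz m ≤ Nz n := by
  unfold Nz
  split_ifs <;> omega

theorem Nz_neg_iff {n : ℤ} : Nz n < 0 ↔ ¬ n < 0 := by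
  unfold Nz
  split_ifs <;> omega

/-! ### Transfer to the unit interval -/

/-- The level of a point of the open unit interval. -/
noncomputable def lev (x : unitInterval) : ℤ := ⌊Real.log ((x : ℝ) / (1 - x))⌋

/-- A point of the open unit interval of level `n`. -/
noncomputable def pt (n : ℤ) : unitInterval :=
  ⟨Real.exp n / (1 + Real.exp n), by
    have h := Real.exp_pos (n : ℝ)
    constructor
    · positivity
    · rw [div_le_one (by positivity)]; linarith⟩

theorem pt_pos (n : ℤ) : pt n ≠ 0 := by
  intro h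
  have h1 : ((pt n : unitInterval) : ℝ) = 0 := by rw [h]; rfl
  have h2 := Real.exp_pos (n : ℝ)
  have h3 : (0 : ℝ) < Real.exp n / (1 + Real.exp n) := by positivity
  exact h3.ne' h1

theorem pt_lt_one (n : ℤ) : pt n ≠ 1 := by
  intro h
  have h1 : ((pt n : unitInterval) : ℝ) = 1 := by rw [h]; rfl
  have h2 := Real.exp_pos (n : ℝ)
  have h3 : Real.exp n / (1 + Real.exp n) < 1 := by
    rw [div_lt_one (by positivity)]; linarith
  exact h3.ne h1

theorem lev_pt (n : ℤ) : lev (pt n) = n := by
  unfold lev
  have h2 := Real.exp_pos (n : ℝ)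
  have h1 : ((pt n : unitInterval) : ℝ) = Real.exp n / (1 + Real.exp n) := rfl
  have h3 : ((pt n : unitInterval) : ℝ) / (1 - pt n) = Real.exp n := by
    rw [h1]
    field_simp
    ring
  rw [h3, Real.log_exp]
  exact Int.floor_intCast n

theorem coe_pos {x : unitInterval} (hx : x ≠ 0) : 0 < (x : ℝ) :=
  unitInterval.pos_iff_ne_zero.mpr hx

theorem coe_lt_one {x : unitInterval} (hx : x ≠ 1) : (x : ℝ) < 1 :=
  unitInterval.lt_one_iff_ne_one.mpr hx

theorem lev_mono {x y : unitInterval} (hx : x ≠ 0) (hy : y ≠ 1) (h : x ≤ y) :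
    lev x ≤ lev y := by
  unfold lev
  apply Int.floor_le_floor
  have hx0 := coe_pos hx
  have hy1 := coe_lt_one hy
  have hxy : (x : ℝ) ≤ y := h
  apply Real.log_le_log
  · apply div_pos hx0; linarith
  · apply div_le_div₀ (by linarith) hxy (by linarith) (by linarith)

/-- The real valued implication. -/
noncomputable def IR (x y : unitInterval) : ℝ :=
  if x = 0 then 1 else if y = 1 then 1 else
  if x = 1 then (if y = 0 then 0 else if lev y < 0 then 1 / 4 else 1 / 2)
  else if y = 0 then (if lev x < 0 then 1 / 2 else 1 / 4)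
  else J (lev x) (lev y)

theorem IR_mem (x y : unitInterval) : IR x y ∈ Set.Icc (0 : ℝ) 1 := by
  unfold IR
  have h1 := J_nonneg (lev x) (lev y)
  have h2 := J_le (lev x) (lev y)
  constructor
  · split_ifs <;> first | assumption | norm_num
  · split_ifs <;> first | assumption | norm_num

/-- The fuzzy implication. -/
noncomputable def I (x y : unitInterval) : unitInterval := ⟨IR x y, IR_mem x y⟩

/-- The fuzzy negation. -/
noncomputable def N (x : unitInterval) : unitInterval :=
  if x = 0 then 1 else if x = 1 then 0 else pt (Nz (lev x))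

theorem N_zero : N 0 = 1 := by simp [N]

theorem N_one : N 1 = 0 := by simp [N]

theorem N_mid {x : unitInterval} (h0 : x ≠ 0) (h1 : x ≠ 1) : N x = pt (Nz (lev x)) := by
  simp [N, h0, h1]

theorem pt_mono {n m : ℤ} (h : n ≤ m) : pt n ≤ pt m := by
  have h1 : Real.exp n ≤ Real.exp m := Real.exp_le_exp.mpr (by exact_mod_cast h)
  have hn := Real.exp_pos (n : ℝ)
  have hm := Real.exp_pos (m : ℝ)
  show Real.exp n / (1 + Real.exp n) ≤ Real.exp m / (1 + Real.exp m)
  rw [div_le_div_iff₀ (by positivity) (by positivity)]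
  nlinarith

theorem isFuzzyNegation_N : IsFuzzyNegation N := by
  refine ⟨?_, N_zero, N_one⟩
  intro x y hxy
  by_cases hx0 : x = 0
  · subst hx0; rw [N_zero]; exact unitInterval.le_one'
  by_cases hy1 : y = 1
  · subst hy1; rw [N_one]; exact unitInterval.nonneg'
  have hy0 : y ≠ 0 := by
    rintro rfl
    exact hx0 (le_antisymm hxy unitInterval.nonneg')
  have hx1 : x ≠ 1 := by
    rintro rfl
    exact hy1 (le_antisymm unitInterval.le_one' hxy)
  rw [N_mid hx0 hx1, N_mid hy0 hy1]
  exact pt_mono (Nz_anti (lev_mono hx0 hy1 hxy))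

theorem IR_anti {x x' y : unitInterval} (h : x ≤ x') : IR x' y ≤ IR x y := by
  by_cases hx0 : x = 0
  · have h1 : IR x y = 1 := by simp [IR, hx0]
    rw [h1]
    exact (IR_mem x' y).2
  have hx'0 : x' ≠ 0 := by
    rintro rfl
    exact hx0 (le_antisymm h unitInterval.nonneg')
  by_cases hy1 : y = 1
  · simp [IR, hy1]
  by_cases hx'1 : x' = 1
  · by_cases hy0 : y = 0
    · have h1 : IR x' y = 0 := by simp [IR, hx'1, hy0]
      rw [h1]
      exact (IR_mem x y).1
    · have h1 : IR x' y = if lev y < 0 then 1 / 4 else 1 / 2 := by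
        simp [IR, hx'1, hy0, hy1]
      rw [h1]
      by_cases hx1 : x = 1
      · rw [hx1, ← hx'1, h1]
      · have h2 : IR x y = J (lev x) (lev y) := by
          simp [IR, hx1, hy0, hy1, hx0]
        rw [h2]
        split_ifs with hl
        · exact J_ge_quarter _ _
        · exact J_ge_half_of_upper hl
  · have hx1 : x ≠ 1 := by
      rintro rfl
      exact hx'1 (le_antisymm unitInterval.le_one' h)
    by_cases hy0 : y = 0
    · have h1 : IR x' y = if lev x' < 0 then 1 / 2 else 1 / 4 := by
        simp [IR, hx'0, hx'1, hy0]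
      have h2 : IR x y = if lev x < 0 then 1 / 2 else 1 / 4 := by
        simp [IR, hx0, hx1, hy0]
      have h3 := lev_mono hx0 hx'1 h
      rw [h1, h2]
      split_ifs
      · exact le_rfl
      · omega
      · norm_num
      · exact le_rfl
    · have h1 : IR x' y = J (lev x') (lev y) := by
        simp [IR, hx'0, hx'1, hy0, hy1]
      have h2 : IR x y = J (lev x) (lev y) := by
        simp [IR, hx0, hx1, hy0, hy1]
      rw [h1, h2]
      exact J_anti (lev_mono hx0 hx'1 h)

theorem IR_mono {x y y' : unitInterval} (h : y ≤ y') : IR x y ≤ IR x y' := by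
  by_cases hx0 : x = 0
  · simp [IR, hx0]
  by_cases hy'1 : y' = 1
  · have h1 : IR x y' = 1 := by simp [IR, hy'1]
    rw [h1]
    exact (IR_mem x y).2
  have hy1 : y ≠ 1 := by
    rintro rfl
    exact hy'1 (le_antisymm unitInterval.le_one' h)
  by_cases hy0 : y = 0
  · by_cases hy'0 : y' = 0
    · rw [hy0, hy'0]
    by_cases hx1 : x = 1
    · have h1 : IR x y = 0 := by simp [IR, hx1, hy0]
      rw [h1]
      exact (IR_mem x y').1
    · have h1 : IR x y = if lev x < 0 then 1 / 2 else 1 / 4 := by
        simp [IR, hx0, hx1, hy0]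
      have h2 : IR x y' = J (lev x) (lev y') := by
        simp [IR, hx0, hx1, hy'0, hy'1]
      rw [h1, h2]
      split_ifs with hl
      · exact J_ge_half_of_lower hl
      · exact J_ge_quarter _ _
  · have hy'0 : y' ≠ 0 := by
      rintro rfl
      exact hy0 (le_antisymm h unitInterval.nonneg')
    have h3 := lev_mono hy0 hy'1 h
    by_cases hx1 : x = 1
    · have h1 : IR x y = if lev y < 0 then 1 / 4 else 1 / 2 := by
        simp [IR, hx1, hy0, hy1]
      have h2 : IR x y' = if lev y' < 0 then 1 / 4 else 1 / 2 := by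
        simp [IR, hx1, hy'0, hy'1]
      rw [h1, h2]
      split_ifs
      · exact le_rfl
      · norm_num
      · omega
      · exact le_rfl
    · have h1 : IR x y = J (lev x) (lev y) := by
        simp [IR, hx0, hx1, hy0, hy1]
      have h2 : IR x y' = J (lev x) (lev y') := by
        simp [IR, hx0, hx1, hy'0, hy'1]
      rw [h1, h2]
      exact J_mono h3

theorem isFuzzyImplication_I : IsFuzzyImplication I := by
  refine ⟨?_, ?_, ?_, ?_, ?_⟩
  · intro y x x' h
    exact IR_anti h
  · intro x y y' h
    exact IR_mono h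
  · apply Subtype.ext; simp [I, IR]
  · apply Subtype.ext; simp [I, IR]
  · apply Subtype.ext; simp [I, IR]

theorem IR_CP (x y : unitInterval) : IR x y = IR (N y) (N x) := by
  by_cases hx0 : x = 0
  · have h1 : N x = 1 := by rw [hx0, N_zero]
    simp [IR, hx0, N_zero]
  by_cases hy1 : y = 1
  · simp [IR, hy1, N_one]
  by_cases hx1 : x = 1
  · by_cases hy0 : y = 0
    · simp [IR, hx1, hy0, N_one, N_zero]
    · have h1 : IR x y = if lev y < 0 then 1 / 4 else 1 / 2 := by
        simp [IR, hx1, hy0, hy1]
      rw [h1, hx1, N_one, N_mid hy0 hy1]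
      simp only [IR, pt_pos, pt_lt_one, lev_pt, if_false, if_true, zero_ne_one, Nz_neg_iff]
      split_ifs <;> rfl
  · by_cases hy0 : y = 0
    · have h1 : IR x y = if lev x < 0 then 1 / 2 else 1 / 4 := by
        simp [IR, hx0, hx1, hy0]
      rw [h1, hy0, N_zero, N_mid hx0 hx1]
      simp only [IR, pt_pos, pt_lt_one, lev_pt, if_false, if_true, one_ne_zero, Nz_neg_iff]
      split_ifs <;> rfl
    · have h1 : IR x y = J (lev x) (lev y) := by
        simp [IR, hx0, hx1, hy0, hy1]
      rw [h1, N_mid hx0 hx1, N_mid hy0 hy1]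
      simp only [IR, pt_pos, pt_lt_one, lev_pt, if_false]
      exact J_CP _ _

theorem CP_I_N : CP I N := by
  intro x y
  apply Subtype.ext
  exact IR_CP x y

/-- Values of `IR` in the middle. -/
theorem IR_mid {x y : unitInterval} (hx0 : x ≠ 0) (hx1 : x ≠ 1) (hy0 : y ≠ 0) (hy1 : y ≠ 1) :
    IR x y = J (lev x) (lev y) := by
  simp [IR, hx0, hx1, hy0, hy1]

theorem IR_one_left {y : unitInterval} :
    IR 1 y = if y = 1 then 1 else if y = 0 then 0 else if lev y < 0 then 1 / 4 else 1 / 2 := by
  simp [IR]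

theorem IR_zero_right {x : unitInterval} :
    IR x 0 = if x = 0 then 1 else if x = 1 then 0 else if lev x < 0 then 1 / 2 else 1 / 4 := by
  simp [IR]

theorem one_left_quarter {y : unitInterval} (h : IR 1 y = 1 / 4) : y ≠ 0 ∧ y ≠ 1 ∧ lev y < 0 := by
  rw [IR_one_left] at h
  split_ifs at h with h1 h2 h3
  · norm_num at h
  · norm_num at h
  · exact ⟨h2, h1, h3⟩
  · norm_num at h

theorem one_left_half {y : unitInterval} (h : IR 1 y = 1 / 2) : y ≠ 0 ∧ y ≠ 1 ∧ ¬ lev y < 0 := by
  rw [IR_one_left] at h
  split_ifs at h with h1 h2 h3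
  · norm_num at h
  · norm_num at h
  · norm_num at h
  · exact ⟨h2, h1, h3⟩

theorem zero_right_quarter {x : unitInterval} (h : IR x 0 = 1 / 4) :
    x ≠ 0 ∧ x ≠ 1 ∧ ¬ lev x < 0 := by
  rw [IR_zero_right] at h
  split_ifs at h with h1 h2 h3
  · norm_num at h
  · norm_num at h
  · norm_num at h
  · exact ⟨h1, h2, h3⟩

theorem zero_right_half {x : unitInterval} (h : IR x 0 = 1 / 2) :
    x ≠ 0 ∧ x ≠ 1 ∧ lev x < 0 := by
  rw [IR_zero_right] at h
  split_ifs at h with h1 h2 h3
  · norm_num at h
  · norm_num at h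
  · exact ⟨h1, h2, h3⟩
  · norm_num at h

theorem not_RCP {N' : unitInterval → unitInterval} (hN : IsFuzzyNegation N') : ¬ RCP I N' := by
  intro h
  have h' : ∀ x y, IR x (N' y) = IR y (N' x) := fun x y => congrArg Subtype.val (h x y)
  -- the point of level `0` goes to a lower point, the point of level `-1` to an upper point
  have a1 := h' (pt 0) 1
  rw [hN.map_one] at a1
  have a2 : IR (pt 0) 0 = 1 / 4 := by
    rw [IR_zero_right]
    simp [pt_pos, pt_lt_one, lev_pt]
  rw [a2] at a1
  obtain ⟨p0, p1, p2⟩ := one_left_quarter a1.symm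
  have b1 := h' (pt (-1)) 1
  rw [hN.map_one] at b1
  have b2 : IR (pt (-1)) 0 = 1 / 2 := by
    rw [IR_zero_right]
    simp [pt_pos, pt_lt_one, lev_pt]
  rw [b2] at b1
  obtain ⟨q0, q1, q2⟩ := one_left_half b1.symm
  have c := h' (pt 0) (pt (-1))
  rw [IR_mid (pt_pos _) (pt_lt_one _) q0 q1, IR_mid (pt_pos _) (pt_lt_one _) p0 p1,
    lev_pt, lev_pt] at c
  unfold J at c
  simp only [q2, p2, if_true, if_false, lt_irrefl, show ((-1 : ℤ) < 0) from by norm_num] at c
  have d := G_strictMono.injective c
  omega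

theorem not_LCP {N' : unitInterval → unitInterval} (hN : IsFuzzyNegation N') : ¬ LCP I N' := by
  intro h
  have h' : ∀ x y, IR (N' x) y = IR (N' y) x := fun x y => congrArg Subtype.val (h x y)
  have a1 := h' (pt 0) 0
  rw [hN.map_zero] at a1
  have a2 : IR 1 (pt 0) = 1 / 2 := by
    rw [IR_one_left]
    simp [pt_pos, pt_lt_one, lev_pt]
  rw [a2] at a1
  obtain ⟨p0, p1, p2⟩ := zero_right_half a1
  have b1 := h' (pt (-1)) 0
  rw [hN.map_zero] at b1
  have b2 : IR 1 (pt (-1)) = 1 / 4 := by
    rw [IR_one_left]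
    simp [pt_pos, pt_lt_one, lev_pt]
  rw [b2] at b1
  obtain ⟨q0, q1, q2⟩ := zero_right_quarter b1
  have c := h' (pt 0) (pt (-1))
  rw [IR_mid p0 p1 (pt_pos _) (pt_lt_one _), IR_mid q0 q1 (pt_pos _) (pt_lt_one _),
    lev_pt, lev_pt] at c
  unfold J at c
  simp only [q2, p2, if_true, if_false, lt_irrefl, show ((-1 : ℤ) < 0) from by norm_num] at c
  have d := G_strictMono.injective c
  omega

/-- There are a fuzzy implication `I` and a fuzzy negation `N` such that `I` satisfies (CP) with
respect to `N`, while for every fuzzy negation `N'` (in particular for `N' = N`) both (L-CP)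
and (R-CP) with respect to `N'` fail. -/
theorem result : ∃ (I : unitInterval → unitInterval → unitInterval)
    (N : unitInterval → unitInterval),
    IsFuzzyImplication I ∧ IsFuzzyNegation N ∧ CP I N ∧
      ∀ N' : unitInterval → unitInterval, IsFuzzyNegation N' → ¬ LCP I N' ∧ ¬ RCP I N' :=
  ⟨I, N, isFuzzyImplication_I, isFuzzyNegation_N, CP_I_N,
    fun _ hN => ⟨not_LCP hN, not_RCP hN⟩⟩

end Pool.Agent.Results.MP_e504dd_lc.OnlyCP
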